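import Mathlib

set_option autoImplicit false

/-!
# Two-sided intersecting families larger than conjectured

For `k = ℓ = 2` and `n₁ = n₂ = n ≥ 5`, the family of all `F` with at least two elements in a fixed
3-set (two elements of `X₁`, one element of `X₂`) is two-sided intersecting and larger than
`max {A, B}`.
-/

namespace Pool.Agent.Results.MP_4c0b8d_co.TwoOfThree

open Finset

/-- The family of all `F ⊆ X₁ ∪ X₂` with `|F ∩ X₁| = k`, `|F ∩ X₂| = l`, where `X₁ = Fin n₁` and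
`X₂ = Fin n₂`; the set `F` is given by the pair `(F ∩ X₁, F ∩ X₂)`. -/
def layer (n₁ n₂ k l : ℕ) : Finset (Finset (Fin n₁) × Finset (Fin n₂)) :=
  powersetCard k univ ×ˢ powersetCard l univ

/-- Intersecting families. -/
def Intersecting {n₁ n₂ : ℕ} (F : Finset (Finset (Fin n₁) × Finset (Fin n₂))) : Prop :=
  ∀ A ∈ F, ∀ B ∈ F, (A.1 ∩ B.1).Nonempty ∨ (A.2 ∩ B.2).Nonempty

/-- Two-sided intersecting families. -/
def TwoSided {n₁ n₂ : ℕ} (F : Finset (Finset (Fin n₁) × Finset (Fin n₂))) : Prop :=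
  Intersecting F ∧ (∃ A ∈ F, ∃ B ∈ F, A.1 ∩ B.1 = ∅) ∧ (∃ A ∈ F, ∃ B ∈ F, A.2 ∩ B.2 = ∅)

/-- The number `A` of the question (the number `B` is `numA n₂ n₁ l k`). All subtractions are
those of integers. -/
def numA (n₁ n₂ k l : ℕ) : ℤ :=
  (((n₂ - 1).choose (l - 1) : ℤ) - ((n₂ - l - 1).choose (l - 1) : ℤ)) * (n₁.choose k : ℤ) + 1 +
    (n₁.choose k : ℤ) - ((n₁ - k).choose k : ℤ)

/-- The statement of the question. (Two-sided intersecting families exist only for `n₁ ≥ 2k` and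
`n₂ ≥ 2l`, so that the subtractions of natural numbers inside the binomial coefficients are
harmless.) -/
def Conjecture : Prop :=
  ∀ n₁ n₂ k l : ℕ, 1 ≤ k → 1 ≤ l → 2 * k ≤ n₁ → 2 * l ≤ n₂ →
    ∀ F ⊆ layer n₁ n₂ k l, TwoSided F →
      ((#F : ℕ) : ℤ) ≤ max (numA n₁ n₂ k l) (numA n₂ n₁ l k)

variable {m : ℕ}

/-- The family of the counterexample. -/
def Fam (m : ℕ) : Finset (Finset (Fin (m + 5)) × Finset (Fin (m + 5))) :=
  (layer (m + 5) (m + 5) 2 2).filter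
    (fun A => (0 ∈ A.1 ∧ 1 ∈ A.1) ∨ ((0 ∈ A.1 ∨ 1 ∈ A.1) ∧ 0 ∈ A.2))

theorem mem_layer (A : Finset (Fin (m + 5)) × Finset (Fin (m + 5))) :
    A ∈ layer (m + 5) (m + 5) 2 2 ↔ #A.1 = 2 ∧ #A.2 = 2 := by
  simp [layer, mem_powersetCard]

/-- a layer -/
def L2 (m : ℕ) : Finset (Finset (Fin (m + 5))) := powersetCard 2 univ

theorem mem_L2 (S : Finset (Fin (m + 5))) : S ∈ L2 m ↔ #S = 2 := by
  simp [L2, mem_powersetCard]

theorem h01 : (0 : Fin (m + 5)) ≠ 1 := by simp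

theorem card_L2 : #(L2 m) = (m + 5).choose 2 := by simp [L2]

theorem card_not0 : #((L2 m).filter (fun S => 0 ∉ S)) = (m + 4).choose 2 := by
  have h : (L2 m).filter (fun S => 0 ∉ S) = powersetCard 2 (univ.erase 0) := by
    ext S
    rw [mem_filter, mem_L2, mem_powersetCard]
    constructor
    · rintro ⟨h1, h2⟩
      refine ⟨fun x hx => ?_, h1⟩
      rw [mem_erase]
      exact ⟨fun h => h2 (h ▸ hx), mem_univ _⟩
    · rintro ⟨h1, h2⟩
      exact ⟨h2, fun h0 => by have := h1 h0; simp at this⟩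
  rw [h, card_powersetCard, card_erase_of_mem (mem_univ _)]
  simp

theorem card_not01 : #((L2 m).filter (fun S => 0 ∉ S ∧ 1 ∉ S)) = (m + 3).choose 2 := by
  have h : (L2 m).filter (fun S => 0 ∉ S ∧ 1 ∉ S) = powersetCard 2 ((univ.erase 0).erase 1) := by
    ext S
    rw [mem_filter, mem_L2, mem_powersetCard]
    constructor
    · rintro ⟨h1, h2, h3⟩
      refine ⟨fun x hx => ?_, h1⟩
      rw [mem_erase, mem_erase]
      exact ⟨fun h => h3 (h ▸ hx), fun h => h2 (h ▸ hx), mem_univ _⟩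
    · rintro ⟨h1, h2⟩
      refine ⟨h2, fun h0 => ?_, fun h0 => ?_⟩
      · have := h1 h0; simp at this
      · have := h1 h0; simp at this
  rw [h, card_powersetCard, card_erase_of_mem, card_erase_of_mem (mem_univ _)]
  · simp
  · rw [mem_erase]; exact ⟨h01.symm, mem_univ _⟩

theorem card_both : #((L2 m).filter (fun S => 0 ∈ S ∧ 1 ∈ S)) = 1 := by
  rw [card_eq_one]
  refine ⟨{0, 1}, ?_⟩
  ext S
  rw [mem_filter, mem_L2, mem_singleton]
  constructor
  · rintro ⟨h1, h2, h3⟩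
    symm
    apply eq_of_subset_of_card_le
    · intro x hx
      rw [mem_insert, mem_singleton] at hx
      rcases hx with rfl | rfl
      · exact h2
      · exact h3
    · rw [h1, card_pair h01]
  · rintro rfl
    rw [card_pair h01]
    simp

theorem card_one :
    #((L2 m).filter (fun S => (0 ∈ S ∨ 1 ∈ S) ∧ ¬ (0 ∈ S ∧ 1 ∈ S))) + 1 + (m + 3).choose 2 =
      (m + 5).choose 2 := by
  rw [← card_both (m := m), ← card_not01 (m := m), ← card_L2 (m := m)]
  rw [← card_union_of_disjoint, ← card_union_of_disjoint]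
  · congr 1
    ext S
    simp only [mem_union, mem_filter]
    tauto
  · rw [disjoint_left]
    intro S
    simp only [mem_union, mem_filter]
    tauto
  · rw [disjoint_left]
    intro S
    simp only [mem_filter]
    tauto

theorem card_0 : #((L2 m).filter (fun S => 0 ∈ S)) + (m + 4).choose 2 = (m + 5).choose 2 := by
  rw [← card_not0 (m := m), ← card_L2 (m := m)]
  exact card_filter_add_card_filter_not _

theorem card_Fam : #(Fam m) = (m + 5).choose 2 +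
    #((L2 m).filter (fun S => (0 ∈ S ∨ 1 ∈ S) ∧ ¬ (0 ∈ S ∧ 1 ∈ S))) *
      #((L2 m).filter (fun S => 0 ∈ S)) := by
  have h : Fam m = ((L2 m).filter (fun S => 0 ∈ S ∧ 1 ∈ S)) ×ˢ (L2 m) ∪
      ((L2 m).filter (fun S => (0 ∈ S ∨ 1 ∈ S) ∧ ¬ (0 ∈ S ∧ 1 ∈ S))) ×ˢ
        ((L2 m).filter (fun S => 0 ∈ S)) := by
    ext ⟨S, T⟩
    simp only [Fam, mem_filter, mem_layer, mem_union, mem_product, mem_L2]
    tauto
  rw [h, card_union_of_disjoint, card_product, card_product, card_both, card_L2, one_mul]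
  rw [disjoint_left]
  rintro ⟨S, T⟩
  simp only [mem_product, mem_filter]
  tauto

theorem choose_aux (m : ℕ) :
    ((m + 3).choose 2 : ℤ) * 2 = (m + 3) * (m + 2) ∧
    ((m + 4).choose 2 : ℤ) = (m + 3).choose 2 + (m + 3) ∧
    ((m + 5).choose 2 : ℤ) = (m + 4).choose 2 + (m + 4) := by
  refine ⟨?_, ?_, ?_⟩
  · have h := Nat.choose_two_right (m + 3)
    have h2 : (m + 3).choose 2 * 2 = (m + 3) * (m + 2) := by
      rw [h]
      exact Nat.div_mul_cancel (by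
        have := Nat.even_mul_pred_self (m + 3)
        exact even_iff_two_dvd.1 this)
    exact_mod_cast h2
  · have h := Nat.choose_succ_succ' (m + 3) 1
    rw [Nat.choose_one_right] at h
    rw [h]; push_cast; ring
  · have h := Nat.choose_succ_succ' (m + 4) 1
    rw [Nat.choose_one_right] at h
    rw [h]; push_cast; ring

theorem card_Fam_eq : ((#(Fam m) : ℕ) : ℤ) = (m + 5).choose 2 + (2 * m + 6) * (m + 4) := by
  obtain ⟨h1, h2, h3⟩ := choose_aux m
  have e1 := card_one (m := m)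
  have e2 := card_0 (m := m)
  have e1' : ((#((L2 m).filter (fun S => (0 ∈ S ∨ 1 ∈ S) ∧ ¬ (0 ∈ S ∧ 1 ∈ S))) : ℕ) : ℤ) =
      2 * m + 6 := by
    have : ((#((L2 m).filter (fun S => (0 ∈ S ∨ 1 ∈ S) ∧ ¬ (0 ∈ S ∧ 1 ∈ S))) : ℕ) : ℤ) + 1 +
      ((m + 3).choose 2 : ℤ) = ((m + 5).choose 2 : ℤ) := by exact_mod_cast e1
    linarith
  have e2' : ((#((L2 m).filter (fun S => 0 ∈ S)) : ℕ) : ℤ) = m + 4 := by
    have : ((#((L2 m).filter (fun S => 0 ∈ S)) : ℕ) : ℤ) + ((m + 4).choose 2 : ℤ) =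
      ((m + 5).choose 2 : ℤ) := by exact_mod_cast e2
    linarith
  rw [card_Fam]
  push_cast
  rw [e1', e2']

theorem numA_eq : numA (m + 5) (m + 5) 2 2 = 2 * (m + 5).choose 2 + 2 * m + 8 := by
  obtain ⟨h1, h2, h3⟩ := choose_aux m
  have q1 : m + 5 - 1 = m + 4 := by omega
  have q2 : m + 5 - 2 - 1 = m + 2 := by omega
  have q3 : m + 5 - 2 = m + 3 := by omega
  rw [numA, q1, q2, q3]
  norm_num
  linarith

theorem bigger : max (numA (m + 5) (m + 5) 2 2) (numA (m + 5) (m + 5) 2 2) < ((#(Fam m) : ℕ) : ℤ) := by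
  obtain ⟨h1, h2, h3⟩ := choose_aux m
  rw [max_self, card_Fam_eq, numA_eq]
  have hm : (0 : ℤ) ≤ m := by positivity
  nlinarith

theorem twoSided : TwoSided (Fam m) := by
  have v0 : ((0 : Fin (m + 5)) : ℕ) = 0 := by simp
  have v1 : ((1 : Fin (m + 5)) : ℕ) = 1 := by simp
  obtain ⟨c, hc⟩ : ∃ c : Fin (m + 5), (c : ℕ) = 2 := ⟨⟨2, by omega⟩, rfl⟩
  obtain ⟨d, hd⟩ : ∃ d : Fin (m + 5), (d : ℕ) = 3 := ⟨⟨3, by omega⟩, rfl⟩
  have n0c : (0 : Fin (m + 5)) ≠ c := by rw [Ne, Fin.ext_iff]; omega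
  have n0d : (0 : Fin (m + 5)) ≠ d := by rw [Ne, Fin.ext_iff]; omega
  have n1c : (1 : Fin (m + 5)) ≠ c := by rw [Ne, Fin.ext_iff]; omega
  have n1d : (1 : Fin (m + 5)) ≠ d := by rw [Ne, Fin.ext_iff]; omega
  have ncd : c ≠ d := by rw [Ne, Fin.ext_iff]; omega
  refine ⟨?_, ?_, ?_⟩
  · intro A hA B hB
    simp only [Fam, mem_filter] at hA hB
    rcases hA.2 with ⟨a1, a2⟩ | ⟨a1 | a1, a2⟩ <;> rcases hB.2 with ⟨b1, b2⟩ | ⟨b1 | b1, b2⟩
    · exact Or.inl ⟨0, mem_inter.2 ⟨a1, b1⟩⟩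
    · exact Or.inl ⟨0, mem_inter.2 ⟨a1, b1⟩⟩
    · exact Or.inl ⟨1, mem_inter.2 ⟨a2, b1⟩⟩
    · exact Or.inl ⟨0, mem_inter.2 ⟨a1, b1⟩⟩
    · exact Or.inr ⟨0, mem_inter.2 ⟨a2, b2⟩⟩
    · exact Or.inr ⟨0, mem_inter.2 ⟨a2, b2⟩⟩
    · exact Or.inl ⟨1, mem_inter.2 ⟨a1, b2⟩⟩
    · exact Or.inr ⟨0, mem_inter.2 ⟨a2, b2⟩⟩
    · exact Or.inr ⟨0, mem_inter.2 ⟨a2, b2⟩⟩
  · refine ⟨({0, c}, {0, 1}), ?_, ({1, d}, {0, 1}), ?_, ?_⟩
    · simp only [Fam, mem_filter, mem_layer]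
      refine ⟨⟨card_pair n0c, card_pair h01⟩, Or.inr ⟨Or.inl (by simp), by simp⟩⟩
    · simp only [Fam, mem_filter, mem_layer]
      refine ⟨⟨card_pair n1d, card_pair h01⟩, Or.inr ⟨Or.inr (by simp), by simp⟩⟩
    · ext x
      simp only [mem_inter, mem_insert, mem_singleton, notMem_empty, iff_false]
      rintro ⟨rfl | rfl, h | h⟩
      · exact h01 h
      · exact n0d h
      · exact n1c h.symm
      · exact ncd h
  · refine ⟨({0, 1}, {0, 1}), ?_, ({0, 1}, {c, d}), ?_, ?_⟩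
    · simp only [Fam, mem_filter, mem_layer]
      refine ⟨⟨card_pair h01, card_pair h01⟩, Or.inl (by simp)⟩
    · simp only [Fam, mem_filter, mem_layer]
      refine ⟨⟨card_pair h01, card_pair ncd⟩, Or.inl (by simp)⟩
    · ext x
      simp only [mem_inter, mem_insert, mem_singleton, notMem_empty, iff_false]
      rintro ⟨rfl | rfl, h | h⟩
      · exact n0c h
      · exact n0d h
      · exact n1c h
      · exact n1d h

/-- **Larger two-sided intersecting families** for `k = ℓ = 2` and `n₁ = n₂ ≥ 5`. -/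
theorem result :
    (∀ n : ℕ, 5 ≤ n → ∃ F ⊆ layer n n 2 2, TwoSided F ∧
      max (numA n n 2 2) (numA n n 2 2) < ((#F : ℕ) : ℤ)) ∧
    ¬ Conjecture := by
  have main : ∀ n : ℕ, 5 ≤ n → ∃ F ⊆ layer n n 2 2, TwoSided F ∧
      max (numA n n 2 2) (numA n n 2 2) < ((#F : ℕ) : ℤ) := by
    intro n hn
    obtain ⟨m, rfl⟩ := Nat.exists_eq_add_of_le' hn
    exact ⟨Fam m, filter_subset _ _, twoSided, bigger⟩
  refine ⟨main, fun hC => ?_⟩
  obtain ⟨F, h1, h2, h3⟩ := main 5 le_rfl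
  have := hC 5 5 2 2 (by norm_num) (by norm_num) (by norm_num) (by norm_num) F h1 h2
  exact absurd this (not_le.2 h3)

end Pool.Agent.Results.MP_4c0b8d_co.TwoOfThree
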